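import Mathlib

set_option autoImplicit false

/-! Project UB, part BPS: elementary lemmas (Bonferroni, tail, number of subsets). -/

namespace Pool.Agent.W308.UB

open Finset

theorem bonf_aux (A : Finset ℕ) (r : ℕ) :
    ∑ T ∈ A.powerset.filter (fun T => T.card ≤ r), (-1 : ℝ) ^ T.card =
      ∑ j ∈ range (r + 1), (-1 : ℝ) ^ j * (A.card.choose j : ℝ) := by
  rw [sum_filter, Finset.sum_powerset_apply_card (fun j => if j ≤ r then (-1 : ℝ) ^ j else 0)]
  have h1 : ∀ j ∈ range (A.card + 1), (A.card.choose j) • (if j ≤ r then (-1 : ℝ) ^ j else 0) =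
      (if j ≤ r then (-1 : ℝ) ^ j * (A.card.choose j : ℝ) else 0) := by
    intro j _
    rw [nsmul_eq_mul]
    split_ifs <;> ring
  rw [sum_congr rfl h1, ← sum_filter]
  refine sum_subset_zero_on_sdiff ?_ ?_ (fun _ _ => rfl)
  · intro j hj
    rw [mem_filter] at hj
    exact mem_range.2 (by omega)
  · intro j hj
    rw [mem_sdiff, mem_range, mem_filter, mem_range] at hj
    have : A.card < j := by
      by_contra h
      exact hj.2 ⟨by omega, by omega⟩
    rw [Nat.choose_eq_zero_of_lt this]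
    simp

theorem bonf (P : Finset ℕ) (r : ℕ) (hr : Even r) (x : ℕ → ℝ) (hx : ∀ p ∈ P, x p = 0 ∨ x p = 1) :
    0 ≤ ∑ T ∈ P.powerset.filter (fun T => T.card ≤ r), (-1 : ℝ) ^ T.card * ∏ p ∈ T, x p ∧
    ((∀ p ∈ P, x p = 0) →
      1 ≤ ∑ T ∈ P.powerset.filter (fun T => T.card ≤ r), (-1 : ℝ) ^ T.card * ∏ p ∈ T, x p) := by
  classical
  set A := P.filter (fun p => x p = 1) with hA
  have h1 : ∑ T ∈ P.powerset.filter (fun T => T.card ≤ r), (-1 : ℝ) ^ T.card * ∏ p ∈ T, x p =
      ∑ T ∈ A.powerset.filter (fun T => T.card ≤ r), (-1 : ℝ) ^ T.card := by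
    symm
    refine sum_subset_zero_on_sdiff ?_ ?_ ?_
    · intro T hT
      rw [mem_filter, mem_powerset] at hT ⊢
      exact ⟨hT.1.trans (filter_subset _ _), hT.2⟩
    · intro T hT
      rw [mem_sdiff, mem_filter, mem_filter, mem_powerset, mem_powerset] at hT
      have h2 : ¬ T ⊆ A := fun h => hT.2 ⟨h, hT.1.2⟩
      obtain ⟨p, hpT, hpA⟩ := not_subset.1 h2
      have h3 : x p = 0 := by
        rcases hx p (hT.1.1 hpT) with h | h
        · exact h
        · exact absurd (mem_filter.2 ⟨hT.1.1 hpT, h⟩) hpA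
      rw [prod_eq_zero hpT h3, mul_zero]
    · intro T hT
      rw [mem_filter, mem_powerset] at hT
      rw [prod_eq_one (fun p hp => (mem_filter.1 (hT.1 hp)).2), mul_one]
  rw [h1, bonf_aux]
  have h2 : ∑ j ∈ range (r + 1), (-1 : ℝ) ^ j * (A.card.choose j : ℝ) =
      ((∑ j ∈ range (r + 1), ((-1) ^ j * (A.card.choose j : ℤ)) : ℤ) : ℝ) := by
    push_cast
    rfl
  rcases Nat.eq_zero_or_pos A.card with h0 | h0
  · have h3 : ∑ j ∈ range (r + 1), (-1 : ℝ) ^ j * (A.card.choose j : ℝ) = 1 := by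
      rw [h0, sum_range_succ']
      simp
    rw [h3]
    exact ⟨zero_le_one, fun _ => le_rfl⟩
  · obtain ⟨n, hn⟩ : ∃ n, A.card = n + 1 := ⟨A.card - 1, by omega⟩
    refine ⟨?_, fun h => ?_⟩
    · rw [h2, hn, Int.alternating_sum_range_choose_eq_choose, hr.neg_one_pow]
      positivity
    · exfalso
      obtain ⟨p, hp⟩ := card_pos.1 h0
      rw [mem_filter] at hp
      have := h p hp.1
      rw [hp.2] at this
      exact one_ne_zero this

theorem tail (P : Finset ℕ) (r : ℕ) (x : ℕ → ℝ) (hx : ∀ p ∈ P, 0 ≤ x p) :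
    |∑ T ∈ P.powerset.filter (fun T => T.card ≤ r), (-1 : ℝ) ^ T.card * ∏ p ∈ T, x p -
      ∏ p ∈ P, (1 - x p)| ≤ Real.exp (Real.exp 1 * ∑ p ∈ P, x p - r) := by
  have h1 : ∏ p ∈ P, (1 - x p) = ∑ T ∈ P.powerset, (-1 : ℝ) ^ T.card * ∏ p ∈ T, x p := by
    have h : ∀ p ∈ P, 1 - x p = 1 + (-1) * x p := fun p _ => by ring
    rw [prod_congr rfl h, Finset.prod_one_add]
    apply sum_congr rfl
    intro T _
    rw [prod_mul_distrib, prod_const]
  have hxT : ∀ T ∈ P.powerset, 0 ≤ ∏ p ∈ T, x p := fun T hT =>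
    prod_nonneg fun p hp => hx p (mem_powerset.1 hT hp)
  rw [h1, ← sum_filter_add_sum_filter_not P.powerset (fun T => T.card ≤ r), sub_add_cancel_left,
    abs_neg]
  refine (abs_sum_le_sum_abs _ _).trans ?_
  have h2 : ∀ T ∈ P.powerset.filter (fun T => ¬ T.card ≤ r),
      |(-1 : ℝ) ^ T.card * ∏ p ∈ T, x p| ≤ Real.exp (-r) * ∏ p ∈ T, (Real.exp 1 * x p) := by
    intro T hT
    rw [mem_filter] at hT
    have h3 := hxT T hT.1
    rw [abs_mul, abs_pow, abs_neg, abs_one, one_pow, one_mul, abs_of_nonneg h3, prod_mul_distrib,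
      prod_const, ← mul_assoc, ← Real.exp_nat_mul, ← Real.exp_add]
    have h4 : (1 : ℝ) ≤ Real.exp (-r + T.card * 1) := by
      apply Real.one_le_exp
      have : (r : ℝ) ≤ T.card := by
        have := hT.2
        exact_mod_cast (by omega : r ≤ T.card)
      linarith
    nlinarith
  refine (sum_le_sum h2).trans ?_
  refine (sum_le_sum_of_subset_of_nonneg (filter_subset _ _) ?_).trans ?_
  · intro T hT _
    exact mul_nonneg (Real.exp_nonneg _) (prod_nonneg fun p hp =>
      mul_nonneg (Real.exp_nonneg _) (hx p (mem_powerset.1 hT hp)))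
  · rw [← mul_sum, ← Finset.prod_one_add]
    have h5 : ∏ p ∈ P, (1 + Real.exp 1 * x p) ≤ Real.exp (∑ p ∈ P, Real.exp 1 * x p) := by
      rw [Real.exp_sum]
      refine prod_le_prod (fun p hp => ?_) (fun p hp => ?_)
      · have := mul_nonneg (Real.exp_nonneg 1) (hx p hp); linarith
      · have := Real.add_one_le_exp (Real.exp 1 * x p); linarith
    calc Real.exp (-r) * ∏ p ∈ P, (1 + Real.exp 1 * x p)
        ≤ Real.exp (-r) * Real.exp (∑ p ∈ P, Real.exp 1 * x p) :=
          mul_le_mul_of_nonneg_left h5 (Real.exp_nonneg _)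
      _ = _ := by rw [← Real.exp_add, ← mul_sum]; congr 1; ring

theorem Ybound (P : Finset ℕ) (r : ℕ) (c : ℕ → ℝ) (K Dp : ℝ) (hc : ∀ p ∈ P, 0 ≤ c p ∧ c p ≤ K)
    (hK : 1 ≤ K) (hD : 1 ≤ Dp) (hP : (P.card : ℝ) ≤ Dp) :
    ∑ T ∈ P.powerset.filter (fun T => T.card ≤ r), ∏ p ∈ T, c p ≤ Real.exp 1 * (K * Dp) ^ r := by
  have hKD : 1 ≤ K * Dp := by nlinarith
  have hD0 : 0 < Dp := by linarith
  have h1 : ∀ T ∈ P.powerset.filter (fun T => T.card ≤ r), ∏ p ∈ T, c p ≤
      (K * Dp) ^ r * ∏ p ∈ T, (1 / Dp) := by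
    intro T hT
    rw [mem_filter, mem_powerset] at hT
    calc ∏ p ∈ T, c p ≤ ∏ p ∈ T, K := prod_le_prod (fun p hp => (hc p (hT.1 hp)).1)
          (fun p hp => (hc p (hT.1 hp)).2)
      _ = (K * Dp) ^ T.card * ∏ p ∈ T, (1 / Dp) := by
          rw [prod_const, prod_const, ← mul_pow]
          congr 1
          field_simp
      _ ≤ (K * Dp) ^ r * ∏ p ∈ T, (1 / Dp) := by
          apply mul_le_mul_of_nonneg_right (pow_le_pow_right₀ hKD hT.2)
          positivity
  refine (sum_le_sum h1).trans ?_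
  refine (sum_le_sum_of_subset_of_nonneg (filter_subset _ _) ?_).trans ?_
  · intro T _ _; positivity
  · rw [← mul_sum, ← Finset.prod_one_add, mul_comm]
    apply mul_le_mul_of_nonneg_right _ (by positivity)
    rw [prod_const]
    calc (1 + 1 / Dp) ^ P.card ≤ (Real.exp (1 / Dp)) ^ P.card := by
          apply pow_le_pow_left₀ (by positivity)
          have := Real.add_one_le_exp (1 / Dp); linarith
      _ = Real.exp (P.card * (1 / Dp)) := by rw [← Real.exp_nat_mul]
      _ ≤ Real.exp 1 := by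
          apply Real.exp_le_exp.2
          rw [mul_one_div]
          exact div_le_one_of_le₀ hP hD0.le

end Pool.Agent.W308.UB
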