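import Pool.Agent.W25.UB.Stm
import Pool.Agent.W398.UNFO
import Pool.Agent.W308.UB.A

set_option autoImplicit false

/-! Project UB, part BPS: Brun's pure sieve as an expandable majorant. -/

namespace Pool.Agent.W308.UB

open Finset Pool.Agent.W25.UN Pool.Agent.W25.UB

section
variable {k : ℕ}

/-- indicator of the root classes modulo `p` -/
noncomputable def Xp (u w : Option (Fin k) → ℤ) (p : ℕ) (n : ℤ) : ℝ :=
  ∑ r ∈ Om u w p, if (p : ℤ) ∣ n - (r : ℤ) then (1 : ℝ) else 0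

theorem dvd_shift (p : ℕ) (a b n r : ℤ) (h : (p : ℤ) ∣ n - r) :
    (p : ℤ) ∣ a * n + b ↔ (p : ℤ) ∣ a * r + b := by
  have h1 : a * n + b = (a * r + b) + a * (n - r) := by ring
  rw [h1]
  exact dvd_add_left (Dvd.dvd.mul_left h a)

open Classical in
theorem Xp_eq (u w : Option (Fin k) → ℤ) (p : ℕ) (hp : 0 < p) (n : ℤ) :
    Xp u w p n = if (∃ j, (p : ℤ) ∣ u j * n + w j) then 1 else 0 := by
  have hp' : (0 : ℤ) < p := by exact_mod_cast hp
  obtain ⟨r0, h0⟩ : ∃ r0 : ℕ, (r0 : ℤ) = n % p :=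
    ⟨(n % p).toNat, Int.toNat_of_nonneg (Int.emod_nonneg _ hp'.ne')⟩
  have h1 : r0 < p := by
    have := Int.emod_lt_of_pos n hp'
    omega
  have h2 : (p : ℤ) ∣ n - r0 := by
    rw [h0]
    exact Int.dvd_self_sub_emod
  have h3 : ∀ r ∈ Om u w p, ((p : ℤ) ∣ n - (r : ℤ) ↔ r = r0) := by
    intro r hr
    have hr1 : r < p := by
      unfold Om at hr
      rw [mem_filter, mem_range] at hr
      exact hr.1
    constructor
    · intro h
      have h4 : (p : ℤ) ∣ (r0 : ℤ) - r := by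
        have := dvd_sub h h2
        have h5 : n - (r : ℤ) - (n - r0) = r0 - r := by ring
        rwa [h5] at this
      have h6 : (r0 : ℤ) - r = 0 := by
        apply Int.eq_zero_of_abs_lt_dvd h4
        rw [abs_lt]
        constructor <;> omega
      omega
    · rintro rfl
      exact h2
  have h4 : r0 ∈ Om u w p ↔ ∃ j, (p : ℤ) ∣ u j * n + w j := by
    unfold Om LZ
    simp only [mem_filter, mem_range, h1, true_and]
    apply exists_congr
    intro j
    rw [← Int.natCast_dvd, dvd_shift p (u j) (w j) n r0 h2]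
  unfold Xp
  rw [Finset.sum_congr rfl (fun r hr => by rw [if_congr (h3 r hr) rfl rfl]), Finset.sum_ite_eq',
    if_congr h4 rfl rfl]

theorem Ex_Xp (hE : St_EXM) (u w : Option (Fin k) → ℤ) (p : ℕ) (hp : p.Prime) (h2 : p ≠ 2) :
    Ex (fun q => q = p) ((Om u w p).card : ℝ) p (Xp u w p) (((Om u w p).card : ℝ) / p) := by
  have h := hE.2.1 (fun q => q = p) ℕ (Om u w p) (fun _ => 1) (fun _ => 1) (p : ℝ)
    (fun r n => if (p : ℤ) ∣ n - (r : ℤ) then (1 : ℝ) else 0) (fun _ => 1 / (p : ℝ)) (by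
      intro r hr
      apply hE.2.2.2.1 (fun q => q = p) p r hp.one_lt.le (hp.odd_of_ne_two h2)
        (Nat.prime_iff.1 hp).squarefree
      intro q hq hqp
      exact (Nat.prime_dvd_prime_iff_eq hq hp).1 hqp)
  convert h using 1
  · simp
  · funext n
    simp [Xp]
  · simp [div_eq_mul_inv]

theorem Ex_prod (hE : St_EXM) (u w : Option (Fin k) → ℤ) (T : Finset ℕ)
    (hT : ∀ p ∈ T, p.Prime ∧ p ≠ 2) :
    Ex (fun q => q ∈ T) (∏ p ∈ T, ((Om u w p).card : ℝ)) (∏ p ∈ T, (p : ℝ))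
      (fun n => ∏ p ∈ T, Xp u w p n) (∏ p ∈ T, ((Om u w p).card : ℝ) / p) := by
  classical
  induction T using Finset.induction_on with
  | empty =>
    have h := hE.2.2.2.1 (fun q => q ∈ (∅ : Finset ℕ)) 1 0 le_rfl odd_one squarefree_one (by
      intro p hp h; exact absurd (Nat.dvd_one.1 h) hp.one_lt.ne')
    convert h using 1
    · simp
    · simp
    · simp
    · simp
  | insert a T ha ih =>
    have h1 := ih (fun p hp => hT p (mem_insert_of_mem hp))
    have h2 := Ex_Xp hE u w a (hT a (mem_insert_self _ _)).1 (hT a (mem_insert_self _ _)).2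
    have h3 := hE.1 _ _ _ _ _ _ _ _ _ _ h2 h1 (by rintro p rfl; exact ha) (by positivity)
      (by positivity)
    convert h3 using 1
    · funext q; simp
    · rw [prod_insert ha]
    · rw [prod_insert ha]
    · funext n; rw [prod_insert ha]
    · rw [prod_insert ha]

theorem Ex_Tr (hE : St_EXM) (u w : Option (Fin k) → ℤ) (P : Finset ℕ) (r : ℕ) (S : ℕ → Prop)
    (Dp : ℝ) (hP : ∀ p ∈ P, p.Prime ∧ p ≠ 2 ∧ S p ∧ (p : ℝ) ≤ Dp) (hD : 1 ≤ Dp) :
    Ex S (∑ T ∈ P.powerset.filter (fun T => T.card ≤ r),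
        |(-1 : ℝ) ^ T.card| * (∏ p ∈ T, ((Om u w p).card : ℝ))) (Dp ^ r)
      (fun n => ∑ T ∈ P.powerset.filter (fun T => T.card ≤ r),
        (-1 : ℝ) ^ T.card * ∏ p ∈ T, Xp u w p n)
      (∑ T ∈ P.powerset.filter (fun T => T.card ≤ r),
        (-1 : ℝ) ^ T.card * ∏ p ∈ T, ((Om u w p).card : ℝ) / p) := by
  apply hE.2.1 S (Finset ℕ) (P.powerset.filter (fun T => T.card ≤ r)) (fun T => (-1 : ℝ) ^ T.card)
    (fun T => ∏ p ∈ T, ((Om u w p).card : ℝ)) (Dp ^ r) (fun T n => ∏ p ∈ T, Xp u w p n)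
    (fun T => ∏ p ∈ T, ((Om u w p).card : ℝ) / p)
  intro T hT
  rw [mem_filter, mem_powerset] at hT
  have h1 := Ex_prod hE u w T (fun p hp => ⟨(hP p (hT.1 hp)).1, (hP p (hT.1 hp)).2.1⟩)
  refine hE.2.2.1 _ _ _ _ _ _ _ _ h1 (fun p hp => (hP p (hT.1 hp)).2.2.1) le_rfl ?_
  calc ∏ p ∈ T, (p : ℝ) ≤ ∏ p ∈ T, Dp := prod_le_prod (fun p _ => by positivity)
        (fun p hp => (hP p (hT.1 hp)).2.2.2)
    _ = Dp ^ T.card := prod_const _
    _ ≤ Dp ^ r := pow_le_pow_right₀ hD hT.2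

end

theorem sum_inv_le (k D' : ℕ) (P : Finset ℕ) (hP : P ⊆ Icc 1 D') :
    ∑ p ∈ P, ((k : ℝ) + 1) / p ≤ ((k : ℝ) + 1) * (1 + Real.log D') := by
  have h1 := harmonic_le_one_add_log D'
  have h2 : ((harmonic D' : ℚ) : ℝ) = ∑ p ∈ Icc 1 D', (1 : ℝ) / p := by
    rw [harmonic_eq_sum_Icc]
    push_cast
    simp
  rw [h2] at h1
  calc ∑ p ∈ P, ((k : ℝ) + 1) / p ≤ ∑ p ∈ Icc 1 D', ((k : ℝ) + 1) / p :=
        sum_le_sum_of_subset_of_nonneg hP (fun p _ _ => by positivity)
    _ = ((k : ℝ) + 1) * ∑ p ∈ Icc 1 D', (1 : ℝ) / p := by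
        rw [mul_sum]; apply sum_congr rfl; intro p _; ring
    _ ≤ _ := mul_le_mul_of_nonneg_left h1 (by positivity)

theorem main (hE : St_EXM) : St_BPS := by
  intro k B C η hη
  -- constants
  set M0 : ℝ := (C : ℝ) + 3 * ((k : ℝ) + 1) * ((B : ℝ) + 1) with hM0
  have hM0' : 0 < M0 := by positivity
  set K : ℝ := 1 + ((B : ℝ) + 1) * (2 * M0 + 2) with hK
  have hK0 : 0 < K := by positivity
  set l0 : ℝ := max (max 1 (6 * K / η)) ((k : ℝ) + 1) with hl0
  refine ⟨⌈Real.exp (Real.exp l0)⌉₊, fun N hN u w D D' hkD hDD hD' hu => ?_⟩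
  set L : ℝ := Real.log N with hL
  have hN1 : Real.exp (Real.exp l0) ≤ N := (Nat.le_ceil _).trans (by exact_mod_cast hN)
  have hN0 : (0 : ℝ) < N := lt_of_lt_of_le (Real.exp_pos _) hN1
  have hL1 : Real.exp l0 ≤ L := (Real.le_log_iff_exp_le hN0).2 hN1
  have hL0 : 0 < L := lt_of_lt_of_le (Real.exp_pos _) hL1
  set l : ℝ := Real.log L with hl
  have hl1 : l0 ≤ l := (Real.le_log_iff_exp_le hL0).2 hL1
  have hexp : Real.exp l = L := Real.exp_log hL0
  have hl_one : 1 ≤ l := ((le_max_left _ _).trans (le_max_left _ _)).trans hl1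
  have hl_K : 6 * K / η ≤ l := ((le_max_right _ _).trans (le_max_left _ _)).trans hl1
  have hl_k : (k : ℝ) + 1 ≤ l := (le_max_right _ _).trans hl1
  have hkL : (k : ℝ) + 1 ≤ L := by
    have := Real.add_one_le_exp l
    rw [hexp] at this
    linarith
  have heL : Real.exp 1 ≤ L := by rw [← hexp]; exact Real.exp_le_exp.2 hl_one
  have hL_one : 1 ≤ L := by
    have := Real.add_one_le_exp (1 : ℝ); linarith
  have hLB1 : 1 ≤ L ^ B := one_le_pow₀ hL_one
  -- the sets
  set P : Finset ℕ := (Icc (D + 1) D').filter Nat.Prime with hP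
  have hPm : ∀ p ∈ P, p.Prime ∧ D < p ∧ p ≤ D' := by
    intro p hp
    rw [hP, mem_filter, mem_Icc] at hp
    exact ⟨hp.2, by omega, hp.1.2⟩
  have hD'1 : 1 ≤ D' := by omega
  set r : ℕ := 2 * ⌈M0 * l⌉₊ with hr
  have hM0l : 0 ≤ M0 * l := by positivity
  have hr_lo : 2 * (M0 * l) ≤ r := by
    rw [hr]; push_cast
    have := Nat.le_ceil (M0 * l); linarith
  have hr_hi : (r : ℝ) ≤ 2 * (M0 * l + 1) := by
    rw [hr]; push_cast
    have := (Nat.ceil_lt_add_one hM0l).le; linarith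
  have hcard : ∀ p ∈ P, ((Om u w p).card : ℝ) ≤ (k : ℝ) + 1 := by
    intro p hp
    have := (Pool.Agent.W398.UNFO.rc k u w p (hPm p hp).1 (hu p (hPm p hp).1 (hPm p hp).2.1)).2.1
    exact_mod_cast this
  -- the exponential bound
  have hmainE : l * (1 + ((B : ℝ) + 1) * r) ≤ η * L := by
    have h1 : l * (1 + ((B : ℝ) + 1) * r) ≤ K * l ^ 2 := by
      have h2 : ((B : ℝ) + 1) * r ≤ ((B : ℝ) + 1) * (2 * (M0 * l + 1)) :=
        mul_le_mul_of_nonneg_left hr_hi (by positivity)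
      have h3 : 1 + ((B : ℝ) + 1) * (2 * (M0 * l + 1)) ≤ K * l := by
        rw [hK]
        have h4 : ((B : ℝ) + 1) * 2 ≤ ((B : ℝ) + 1) * 2 * l := by
          have : 0 ≤ ((B : ℝ) + 1) * 2 := by positivity
          nlinarith
        nlinarith
      have h5 : l * (1 + ((B : ℝ) + 1) * r) ≤ l * (K * l) :=
        mul_le_mul_of_nonneg_left (by linarith) (by linarith)
      calc _ ≤ l * (K * l) := h5
        _ = K * l ^ 2 := by ring
    have h6 : l ^ 3 / 6 ≤ L := by
      have := Real.pow_div_factorial_le_exp l (by linarith) 3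
      rw [hexp] at this
      have h7 : ((Nat.factorial 3 : ℕ) : ℝ) = 6 := by norm_num [Nat.factorial]
      rwa [h7] at this
    have h8 : K * l ^ 2 ≤ η * (l ^ 3 / 6) := by
      have h9 : 6 * K ≤ l * η := (div_le_iff₀ hη).1 hl_K
      have h10 : 6 * K * l ^ 2 ≤ l * η * l ^ 2 := mul_le_mul_of_nonneg_right h9 (by positivity)
      nlinarith
    have h11 : η * (l ^ 3 / 6) ≤ η * L := mul_le_mul_of_nonneg_left h6 hη.le
    linarith
  have hNη : (N : ℝ) ^ η = Real.exp (η * L) := by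
    rw [Real.rpow_def_of_pos hN0, mul_comm]
  have hbound : L * (L * L ^ B) ^ r ≤ (N : ℝ) ^ η := by
    rw [hNη]
    have h1 : L * (L * L ^ B) ^ r = Real.exp (l * (1 + ((B : ℝ) + 1) * r)) := by
      have h2 : L * (L * L ^ B) ^ r = L ^ (1 + (B + 1) * r) := by ring
      rw [h2, ← hexp, ← Real.exp_nat_mul]
      congr 1
      push_cast
      ring
    rw [h1]
    exact Real.exp_le_exp.2 hmainE
  have hR : (L ^ B) ^ r ≤ (N : ℝ) ^ η := by
    refine le_trans ?_ hbound
    have h1 : (L ^ B) ^ r ≤ (L * L ^ B) ^ r := by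
      apply pow_le_pow_left₀ (by positivity)
      nlinarith
    have h2 : (L * L ^ B) ^ r ≤ L * (L * L ^ B) ^ r := by
      have : 0 ≤ (L * L ^ B) ^ r := by positivity
      nlinarith
    exact h1.trans h2
  have hPcard : (P.card : ℝ) ≤ L ^ B := by
    have h1 : P.card ≤ D' := by
      calc P.card ≤ (Icc (D + 1) D').card := card_filter_le _ _
        _ ≤ D' := by rw [Nat.card_Icc]; omega
    exact (by exact_mod_cast h1 : (P.card : ℝ) ≤ D').trans hD'
  have hY : ∑ T ∈ P.powerset.filter (fun T => T.card ≤ r),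
      |(-1 : ℝ) ^ T.card| * (∏ p ∈ T, ((Om u w p).card : ℝ)) ≤ (N : ℝ) ^ η := by
    have h1 : ∑ T ∈ P.powerset.filter (fun T => T.card ≤ r),
        |(-1 : ℝ) ^ T.card| * (∏ p ∈ T, ((Om u w p).card : ℝ)) =
        ∑ T ∈ P.powerset.filter (fun T => T.card ≤ r), ∏ p ∈ T, ((Om u w p).card : ℝ) := by
      apply sum_congr rfl
      intro T _
      rw [abs_pow, abs_neg, abs_one, one_pow, one_mul]
    rw [h1]
    refine (Ybound P r (fun p => ((Om u w p).card : ℝ)) L (L ^ B)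
      (fun p hp => ⟨by positivity, (hcard p hp).trans hkL⟩) hL_one hLB1 hPcard).trans ?_
    refine le_trans ?_ hbound
    exact mul_le_mul_of_nonneg_right heL (by positivity)
  refine ⟨fun n => ∑ T ∈ P.powerset.filter (fun T => T.card ≤ r),
      (-1 : ℝ) ^ T.card * ∏ p ∈ T, Xp u w p n,
    ∑ T ∈ P.powerset.filter (fun T => T.card ≤ r),
      (-1 : ℝ) ^ T.card * ∏ p ∈ T, ((Om u w p).card : ℝ) / p, ?_, ?_, ?_, ?_⟩
  · have h1 := Ex_Tr hE u w P r (fun p => D < p ∧ p ≤ D') (L ^ B) (fun p hp =>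
      ⟨(hPm p hp).1, by have := (hPm p hp).2.1; omega, (hPm p hp).2,
        (by exact_mod_cast (hPm p hp).2.2 : (p : ℝ) ≤ D').trans hD'⟩) hLB1
    exact hE.2.2.1 _ _ _ _ _ _ _ _ h1 (fun _ h => h) hY hR
  · intro n
    exact (bonf P r (by rw [hr]; exact even_two_mul _) (fun p => Xp u w p n) (fun p hp => by
      classical
      simp only [Xp_eq u w p (hPm p hp).1.pos n]
      split_ifs
      · right; rfl
      · left; rfl)).1
  · intro n hn
    refine (bonf P r (by rw [hr]; exact even_two_mul _) (fun p => Xp u w p n) (fun p hp => by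
      classical
      simp only [Xp_eq u w p (hPm p hp).1.pos n]
      split_ifs
      · right; rfl
      · left; rfl)).2 ?_
    intro p hp
    classical
    simp only [Xp_eq u w p (hPm p hp).1.pos n]
    rw [if_neg]
    rintro ⟨j, hj⟩
    exact hn p (hPm p hp).1 (hPm p hp).2.1 (hPm p hp).2.2 j hj
  · refine (tail P r (fun p => ((Om u w p).card : ℝ) / p) (fun p _ => by positivity)).trans ?_
    have h1 : ∑ p ∈ P, ((Om u w p).card : ℝ) / p ≤ ((k : ℝ) + 1) * (1 + (B : ℝ) * l) := by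
      calc ∑ p ∈ P, ((Om u w p).card : ℝ) / p ≤ ∑ p ∈ P, ((k : ℝ) + 1) / p :=
            sum_le_sum fun p hp => div_le_div_of_nonneg_right (hcard p hp) (by positivity)
        _ ≤ ((k : ℝ) + 1) * (1 + Real.log D') := by
            apply sum_inv_le k D' P
            intro p hp
            rw [mem_Icc]
            exact ⟨(hPm p hp).1.one_lt.le, (hPm p hp).2.2⟩
        _ ≤ ((k : ℝ) + 1) * (1 + (B : ℝ) * l) := by
            apply mul_le_mul_of_nonneg_left _ (by positivity)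
            have h2 : Real.log D' ≤ Real.log (L ^ B) :=
              Real.log_le_log (by exact_mod_cast hD'1) hD'
            rw [Real.log_pow] at h2
            linarith
    have h3 : (1 : ℝ) / L ^ C = Real.exp (-((C : ℝ) * l)) := by
      rw [Real.exp_neg, Real.exp_nat_mul, hexp, one_div]
    rw [h3]
    apply Real.exp_le_exp.2
    have h4 : Real.exp 1 ≤ 3 := by
      have := Real.exp_one_lt_d9; linarith
    have h5 : Real.exp 1 * ∑ p ∈ P, ((Om u w p).card : ℝ) / p ≤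
        3 * (((k : ℝ) + 1) * (1 + (B : ℝ) * l)) :=
      mul_le_mul h4 h1 (sum_nonneg fun p _ => by positivity) (by norm_num)
    have h6 : (1 : ℝ) + B * l ≤ ((B : ℝ) + 1) * l := by linarith
    have h7 : ((k : ℝ) + 1) * (1 + (B : ℝ) * l) ≤ ((k : ℝ) + 1) * (((B : ℝ) + 1) * l) :=
      mul_le_mul_of_nonneg_left h6 (by positivity)
    have h8 : M0 * l = C * l + 3 * (((k : ℝ) + 1) * (((B : ℝ) + 1) * l)) := by rw [hM0]; ring
    linarith

end Pool.Agent.W308.UB
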